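import Pool.Agent.J4H45.GT.Rch

set_option autoImplicit false

/-!
# Reachability oracles: tables of linear sketches over finite abelian groups need quadratic space

A directed graph with `n` vertices and at most `n` arcs is preprocessed. A query `(x, y)` asks whether
there is a directed path from `x` to `y`. The oracles of the theorem consist of `c` cells. The arcs are
divided into those with a tail less than `n / 2` and the others. The cell `σ` belongs to a finite
abelian group `Γ σ` of order at most `2 ^ r` (every cell may have its own group). Its sketch is the
group element

  `∑ a σ (x, y)` over all `(x, y)` in `P σ` with a path from `x` to `y`, plus `f σ (first arcs)`,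
  plus `g σ (other arcs)`,

where the set `P σ`, the coefficients `a σ (x, y)` in `Γ σ` and the functions `f σ`, `g σ` are
arbitrary; the contents of the cell are an arbitrary function of its sketch and of the `d` bits of a
protocol of two players who know one class of arcs each. The query procedure reads `t` cells
adaptively, without any bound on the computation, and everything may be random; every query is
answered correctly with probability at least `1 / 2 + δ`. Only the `s` cells with nonempty `P σ`
count. We show

  `δ ^ 10 * n ^ 2 ≤ 10 ^ 39 * ((r + d) * t) ^ 4 * (r * s + 1)`.

For the groups `(Z / 2) ^ r` (exclusive ors of answers) this is the starting result `AnswerTables`.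
New are all other groups: for instance, with `Γ σ = Z / 2 ^ r`, the cells may contain arbitrary
functions of integers `∑ a σ (x, y) + f σ + g σ` from `[0, 2 ^ r)`, such as the number of the vertices
of a set which can be reached from `x`, its value modulo any number, or whether there is one.

The proof is described in `Pool.Agent.Results.MP_e016b3_lc.GroupTables`; the reduction from families
of sets is the one of the starting result.
-/

namespace Pool.Agent.Results.MP_dd2a0a_lc.GroupOracles

open Pool.Agent.J4H45.GT

/-- Every random reachability oracle for directed graphs with `n` vertices and at most `n` arcs in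
which the contents of every cell are an arbitrary function of a linear sketch of the answers over a
finite abelian group of order at most `2 ^ r` (plus arbitrary functions of the two classes of arcs)
and of `d` bits of a protocol, with `s` cells in which answers enter, `t` probes and advantage `δ`,
satisfies `δ ^ 10 * n ^ 2 ≤ 10 ^ 39 * ((r + d) * t) ^ 4 * (r * s + 1)`. -/
theorem result (n c r d t s : ℕ) (Γ : Fin c → Type) [∀ σ, AddCommGroup (Γ σ)]
    [∀ σ, Fintype (Γ σ)] (Δ : Type) (hr : 1 ≤ r) (ht : 1 ≤ t) (δ : ℝ) (hδ : 0 < δ)
    (hδ2 : δ ≤ 1 / 2) (Ω : Type) [Fintype Ω] (p : Ω → ℝ) (D : Ω → RSketchDS n c d Γ Δ)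
    (hcard : ∀ σ, Fintype.card (Γ σ) ≤ 2 ^ r) (hs : ∀ ω, (D ω).space ≤ s)
    (hD : RSketchSolves p D t δ) :
    δ ^ 10 * (n : ℝ) ^ 2 ≤ 10 ^ 39 * (((r : ℝ) + d) * t) ^ 4 * (r * s + 1) :=
  rfin n t r d ht hr δ hδ hδ2 c s Γ Δ Ω p D hcard hs hD

end Pool.Agent.Results.MP_dd2a0a_lc.GroupOracles
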